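import Pool.Agent.H579.R.Dsp6R
import Pool.Agent.H579.R.Reg
import Pool.Graph.R_seed8.Y877.SxP

/-!
# `N_1 = p + p_1, ..., N_k = p + p_k` with `π(p)` prime, for almost all multiples `N_i` of EVERY regular modulus up to
# `x ^ (2 / 3 - ρ)`

Q1 asks for a representation `2 n = p + p'` of every even number `2 n > 4` as a sum of two primes for which `π(p)` is
prime. It is shown that almost all multiples `N ≤ 2 x` of every regular modulus `q ≤ x ^ (2 / 3 - ρ)` which is divisible
by the primes up to `w` (`w` larger than a large multiple of `log log x`) have such representations, and the expected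
number of them; the number of the multiples `N ≤ 2 x` of `q` may be as small as `x ^ (1 / 3 + ρ)`. More generally, for `k`
moduli `q_1, ..., q_k`, for almost all vectors `(N_1, ..., N_k)` of multiples of `q_1, ..., q_k` in `(x + 1, 2 x + 1]` the
number of the primes `p ≤ x` with `π(p)` prime for which ALL the numbers `N_i - p` are prime is

  `(1 + O(η)) ∏ (q_i / φ(q_i)) #{p ≤ x : p, π(p) prime} / log ^ k x`

with the exception of at most `C log log x / (η ^ 2 w) ∏ (x / q_i)` vectors. Part (1) is a formula for EVERY set `S` of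
primes `p ≤ x` in place of the set of the primes `p` with `π(p)` prime, and for the `N_i` in arbitrary residue classes
`r_i` modulo `q_i`: the number of the `p ∈ S` with all `N_i - p` prime is

  `∏ (q_i / φ(q_i)) #{p ∈ S : (r_i - p, q_i) = 1 for all i} / log ^ k x`

up to an error of `η ∏ (q_i / φ(q_i)) (#S + x / log ^ A x) / log ^ k x`, with at most as many exceptions.

The moduli have to be regular: not divisible by a member of a set `D` (depending on `x`) of at most `log ^ c x`
integers, the RADICALS of which are larger than any given power of `log x`. There is NO condition on moduli with a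
radical `≤ log ^ B x`, for instance on the powers `≤ x ^ (2 / 3 - ρ)` of the product of the primes up to `K log log x`.
Proof: `Pool.Agent.H579.G.Dsp1` to `Dsp6`, `Pool.Agent.H579.R` (mean squares over the characters for the difference
between the primes and the sieve model, along arbitrary sequences, and the mean square of the sieve model in classes;
Postnikov's formula and Vinogradov's method for the conductors with a small radical, `H567/PP`);
the lower bound for the number of the primes with prime index is `PPi_low` of the library.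
-/

set_option autoImplicit false

open Finset

namespace Pool.Agent.Results.MP_5d7b92_nt.MultiplesOfLargeModuli

/-- the radical of `d`: the product of the primes dividing `d` -/
def rad (d : ℕ) : ℕ := ∏ p ∈ d.primeFactors, p

/-- the primes `p ≤ x` such that `π(p)` is prime -/
noncomputable def PP (x : ℕ) : Finset ℕ := (Icc 1 x).filter (fun p => p.Prime ∧ (Nat.primeCounting p).Prime)

open Classical in
/-- The `p ∈ S` for which all the numbers `N_i - p` are prime. -/
noncomputable def common {k : ℕ} (S : Finset ℕ) (N : Fin k → ℕ) : Finset ℕ :=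
  S.filter (fun p => ∀ i, (N i - p).Prime)

open Classical in
/-- The `p ∈ S` for which all the numbers `r_i - p` are prime to `q_i`. -/
noncomputable def loc {k : ℕ} (S : Finset ℕ) (q r : Fin k → ℕ) : Finset ℕ :=
  S.filter (fun p => ∀ i, Int.gcd ((r i : ℤ) - p) (q i) = 1)

/-- the product of the `q_i / φ(q_i)` -/
noncomputable def dens {k : ℕ} (q : Fin k → ℕ) : ℝ := ∏ i, (q i : ℝ) / Nat.totient (q i)

open Classical in
/-- The vectors `N` with `x + 1 < N_i ≤ 2 x + 1`, `N_i ≡ r_i (mod q_i)`, for which the number of the `p ∈ S` with all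
`N_i - p` prime differs from `M` by more than `E`. -/
noncomputable def exceptional {k : ℕ} (M E : ℝ) (x : ℕ) (S : Finset ℕ) (q r : Fin k → ℕ) : Finset (Fin k → ℕ) :=
  (Fintype.piFinset fun _ => Icc (x + 2) (2 * x + 1)).filter (fun N => (∀ i, N i ≡ r i [MOD q i]) ∧
    E < |((common S N).card : ℝ) - M|)

open Pool.Agent.H579.G

/-- few primes `p ≤ x` divide one of the moduli -/
lemma loc_zero {k x : ℕ} (q : Fin k → ℕ) (hq : ∀ i, 1 ≤ q i ∧ q i ≤ x) :
    ((PP x).card : ℝ) - 2 * k * Real.log x ≤ (loc (PP x) q 0).card := by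
  classical
  have h1 : (PP x) \ (loc (PP x) q 0) ⊆ (univ : Finset (Fin k)).biUnion (fun i => (q i).primeFactors) := by
    intro p hp
    rw [mem_sdiff] at hp
    obtain ⟨hp1, hp2⟩ := hp
    have hpp : p.Prime := by
      unfold PP at hp1
      exact (mem_filter.1 hp1).2.1
    unfold loc at hp2
    rw [mem_filter, not_and] at hp2
    have h3 := hp2 hp1
    push Not at h3
    obtain ⟨i, hi⟩ := h3
    refine mem_biUnion.2 ⟨i, mem_univ _, ?_⟩
    rw [Nat.mem_primeFactors]
    refine ⟨hpp, ?_, by have := (hq i).1; omega⟩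
    have h4 : Int.gcd (((0 : Fin k → ℕ) i : ℤ) - p) (q i) = Nat.gcd p (q i) := by
      simp only [Pi.zero_apply, Nat.cast_zero, zero_sub, Int.neg_gcd, Int.gcd_natCast_natCast]
    rw [h4] at hi
    by_contra h5
    exact hi ((Nat.Prime.coprime_iff_not_dvd hpp).2 h5)
  have h2 : (((PP x) \ (loc (PP x) q 0)).card : ℝ) ≤ 2 * k * Real.log x := by
    calc (((PP x) \ (loc (PP x) q 0)).card : ℝ) ≤ ((∑ i : Fin k, (q i).primeFactors.card : ℕ) : ℝ) := by
          exact_mod_cast (card_le_card h1).trans card_biUnion_le
      _ ≤ ∑ _i : Fin k, 2 * Real.log x := by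
          push_cast
          refine sum_le_sum fun i _ => ?_
          refine (omega_le (hq i).1).trans ?_
          have : Real.log (q i) ≤ Real.log x :=
            Real.log_le_log (by exact_mod_cast (hq i).1) (by exact_mod_cast (hq i).2)
          linarith
      _ = 2 * k * Real.log x := by
          rw [sum_const, card_univ, Fintype.card_fin, nsmul_eq_mul]
          ring
  have h3 : (PP x).card = (loc (PP x) q 0).card + ((PP x) \ (loc (PP x) q 0)).card := by
    have h5 : loc (PP x) q 0 ⊆ PP x := by
      unfold loc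
      exact filter_subset _ _
    have := card_sdiff_add_card_eq_card h5
    omega
  have h4 : ((PP x).card : ℝ) = (loc (PP x) q 0).card + ((PP x) \ (loc (PP x) q 0)).card := by exact_mod_cast h3
  linarith

/-- **Every regular modulus, almost all multiples, a common prime with prime index; and the general formula.** -/
theorem result (k A : ℕ) (hk : 1 ≤ k) : ∃ C : ℝ, ∀ ρ : ℝ, 0 < ρ → ∃ c : ℕ, ∀ B : ℕ, ∃ x₀ : ℕ, ∀ x : ℕ, x₀ ≤ x →
    (x : ℝ) / (8 * Real.log x ^ 2) ≤ (PP x).card ∧
    ∃ D : Finset ℕ, (D.card : ℝ) ≤ Real.log x ^ c ∧ (∀ d ∈ D, Real.log x ^ B < (rad d : ℝ)) ∧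
      ∀ q : Fin k → ℕ, (∀ i, 1 ≤ q i ∧ (q i : ℝ) ≤ (x : ℝ) ^ (2 / 3 - ρ) ∧
        ((rad (q i) : ℝ) ≤ Real.log x ^ B ∨ ∀ d ∈ D, ¬ d ∣ q i)) →
      ∀ w : ℕ, 1 ≤ w → (w : ℝ) ≤ Real.log x → (∀ l : ℕ, l.Prime → l ≤ w → ∀ i, l ∣ q i) →
      -- (1) arbitrary sets of primes, arbitrary classes
      (∀ r : Fin k → ℕ, ∀ S ⊆ Icc 1 x, (∀ p ∈ S, p.Prime) → ∀ η : ℝ, 0 < η → η ≤ 1 →
        ((exceptional (dens q * ((loc S q r).card / Real.log x ^ k))
            (η * dens q * ((S.card + x / Real.log x ^ A) / Real.log x ^ k)) x S q r).card : ℝ) ≤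
          C * Real.log (Real.log x) / (η ^ 2 * w) * ∏ i, ((x : ℝ) / q i)) ∧
      -- (2) the primes with prime index, multiples of the moduli
      ∀ η : ℝ, 0 < η → η ≤ 1 →
        ((exceptional (dens q * ((PP x).card / Real.log x ^ k))
            (η * (dens q * ((PP x).card / Real.log x ^ k))) x (PP x) q 0).card : ℝ) ≤
          C * Real.log (Real.log x) / (η ^ 2 * w) * ∏ i, ((x : ℝ) / q i) := by
  classical
  obtain ⟨C, hC, h1⟩ := Pool.Agent.H579.R.common_natR k (A + 3) hk
  have h2k : (1 : ℝ) ≤ 2 ^ k := one_le_pow₀ (by norm_num)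
  have hCk : C ≤ 2 ^ k * C := by nlinarith
  have hCk2 : (2 : ℝ) ^ k ≤ 2 ^ k * C := by nlinarith
  refine ⟨4 * (2 ^ k * C), fun ρ hρ => ?_⟩
  obtain ⟨c, h2⟩ := h1 ρ hρ
  refine ⟨c, fun B => ?_⟩
  obtain ⟨n1, h3⟩ := h2 B
  obtain ⟨n2, h4⟩ := Pool.Agent.Y877.SX.PPi_low
  obtain ⟨n3, h5⟩ := Filter.eventually_atTop.1 (Pool.Agent.Y614.GJ.Core.ev_log 1 (s := 1) (by norm_num) (8 : ℝ))
  obtain ⟨n4, h6⟩ := Pool.Agent.H373R2.T7.ev_log' 4 (64 * k)
  refine ⟨n1 + n2 + n3 + n4 + 3, fun x hx => ⟨h4 x (by omega), ?_⟩⟩
  obtain ⟨D, hD1, hD2, hD3⟩ := h3 x (by omega)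
  have hL8 : 8 ≤ Real.log x := (h5 x (by omega)).1
  have hlow : (x : ℝ) / (8 * Real.log x ^ 2) ≤ (PP x).card := h4 x (by omega)
  have hx0 : (0 : ℝ) < x := by exact_mod_cast (by omega : 0 < x)
  have hx1 : (1 : ℝ) ≤ x := by exact_mod_cast (by omega : 1 ≤ x)
  have hL0 : 0 < Real.log x := by linarith
  obtain ⟨l, hl⟩ : ∃ l, l = Real.log (Real.log x) := ⟨_, rfl⟩
  have hl1 : 1 ≤ l := by
    rw [hl]
    have h7 : Real.exp 1 ≤ Real.log x := by
      have := Real.exp_one_lt_d9
      linarith
    have := Real.log_le_log (Real.exp_pos 1) h7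
    rwa [Real.log_exp] at this
  refine ⟨D, hD1, hD2, fun q hq' w hw1 hwL hwq => ?_⟩
  have hq := fun i => (⟨(hq' i).1, (hq' i).2.1, Pool.Agent.H579.R.reg_of_rad (hq' i).1 hD2 (hq' i).2.2⟩ :
    1 ≤ q i ∧ (q i : ℝ) ≤ (x : ℝ) ^ (2 / 3 - ρ) ∧ ∀ d ∈ D, ¬ d ∣ q i)
  refine ⟨fun r S hS _ η hη0 hη1 => ?_, fun η hη0 hη1 => ?_⟩
  · have hw0 : (0 : ℝ) < w := by exact_mod_cast hw1
    have hq0 : ∀ i, (0 : ℝ) < q i := fun i => by exact_mod_cast (hq i).1
    have hPi0 : 0 < ∏ i, ((x : ℝ) / q i) := prod_pos fun i _ => div_pos hx0 (hq0 i)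
    have h7 := hD3 q hq w hw1 hwL hwq r S hS (S.card + x / Real.log x ^ A)
      (by
        have : (0 : ℝ) ≤ x / Real.log x ^ A := by positivity
        linarith)
      (by
        have e1 : (0 : ℝ) ≤ S.card := Nat.cast_nonneg _
        have e2 : (x : ℝ) / Real.log x ^ (A + 3) ≤ x / Real.log x ^ A :=
          div_le_div_of_nonneg_left hx0.le (by positivity) (pow_le_pow_right₀ (by linarith) (by omega))
        linarith) η hη0 hη1
    refine le_trans (le_of_eq ?_) (h7.trans (mul_le_mul_of_nonneg_right ?_ hPi0.le))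
    · rfl
    · rw [← hl]
      refine div_le_div_of_nonneg_right ?_ (by positivity)
      refine mul_le_mul_of_nonneg_right ?_ (by linarith)
      nlinarith
  · have hw0 : (0 : ℝ) < w := by exact_mod_cast hw1
    have hq0 : ∀ i, (0 : ℝ) < q i := fun i => by exact_mod_cast (hq i).1
    have hqx : ∀ i, q i ≤ x := fun i => by
      have e1 : (q i : ℝ) ≤ x := by
        refine (hq i).2.1.trans ?_
        calc (x : ℝ) ^ (2 / 3 - ρ) ≤ (x : ℝ) ^ (1 : ℝ) := Real.rpow_le_rpow_of_exponent_le hx1 (by linarith)
          _ = x := Real.rpow_one _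
      exact_mod_cast e1
    have hPi0 : 0 < ∏ i, ((x : ℝ) / q i) := prod_pos fun i _ => div_pos hx0 (hq0 i)
    rw [← hl]
    by_cases hηw : η ^ 2 * w ≤ l
    · -- the trivial bound
      have hq1 : ∀ i, 1 ≤ q i := fun i => (hq i).1
      have h8 : ((exceptional (dens q * ((PP x).card / Real.log x ^ k))
            (η * (dens q * ((PP x).card / Real.log x ^ k))) x (PP x) q 0).card : ℝ) ≤ 2 ^ k * ∏ i, ((x : ℝ) / q i) := by
        refine le_trans ?_ (box_nat (a := cls x q 0) (fun i => ⟨hq1 i, hqx i⟩)
          (T := (exceptional (dens q * ((PP x).card / Real.log x ^ k))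
            (η * (dens q * ((PP x).card / Real.log x ^ k))) x (PP x) q 0).image (fun N i => N i - (x + 1))) ?_)
        · rw [card_image_of_injOn]
          intro N hN N' hN' e
          rw [mem_coe] at hN hN'
          unfold exceptional at hN hN'
          rw [mem_filter, Fintype.mem_piFinset] at hN hN'
          funext i
          have k1 := mem_Icc.1 (hN.1 i)
          have k2 := mem_Icc.1 (hN'.1 i)
          have k3 := congrFun e i
          dsimp only at k3
          omega
        · intro h hh i
          obtain ⟨N, hN, rfl⟩ := mem_image.1 hh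
          unfold exceptional at hN
          rw [mem_filter, Fintype.mem_piFinset] at hN
          have k1 := mem_Icc.1 (hN.1 i)
          dsimp only
          exact ⟨by omega, by omega, cls_mod hq1 (fun i => (mem_Icc.1 (hN.1 i)).1) i (hN.2.1 i)⟩
      refine h8.trans (mul_le_mul_of_nonneg_right ?_ hPi0.le)
      rw [le_div_iff₀ (by positivity)]
      calc (2 : ℝ) ^ k * (η ^ 2 * w) ≤ 2 ^ k * l := by gcongr
        _ ≤ 4 * (2 ^ k * C) * l := by
            refine mul_le_mul_of_nonneg_right ?_ (by linarith)
            linarith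
    rw [not_le] at hηw
    have hη2 : 1 ≤ η ^ 2 * Real.log x := by
      have : η ^ 2 * w ≤ η ^ 2 * Real.log x := by gcongr
      linarith
    have hηL : 1 / Real.log x ≤ η := by
      rw [div_le_iff₀ hL0]
      have : η ^ 2 * Real.log x ≤ η * Real.log x := by
        refine mul_le_mul_of_nonneg_right ?_ hL0.le
        nlinarith
      linarith
    have h7 := hD3 q hq w hw1 hwL hwq 0 (PP x) (filter_subset _ _) (PP x).card le_rfl
      (by
        refine le_trans ?_ hlow
        refine div_le_div_of_nonneg_left hx0.le (by positivity) ?_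
        calc 8 * Real.log x ^ 2 ≤ Real.log x * Real.log x ^ 2 := by gcongr
          _ = Real.log x ^ 3 := by ring
          _ ≤ Real.log x ^ (A + 3) := pow_le_pow_right₀ (by linarith) (by omega)) (η / 2) (by linarith) (by linarith)
    have hsub : exceptional (dens q * ((PP x).card / Real.log x ^ k))
            (η * (dens q * ((PP x).card / Real.log x ^ k))) x (PP x) q 0 ⊆
        excG (den q * ((lcs (PP x) q 0).card / Real.log x ^ k)) (η / 2 * den q * ((PP x).card / Real.log x ^ k)) x
          (PP x) q 0 := by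
      intro N hN
      unfold exceptional at hN
      unfold excG
      rw [mem_filter] at hN ⊢
      refine ⟨hN.1, hN.2.1, ?_⟩
      have e0 : cmn (PP x) N = common (PP x) N := rfl
      have e1 : (den q : ℝ) = dens q := rfl
      have e2 : lcs (PP x) q 0 = loc (PP x) q 0 := rfl
      have hd0 : 0 ≤ dens q := by
        unfold dens
        exact prod_nonneg fun i _ => by positivity
      have e3 := loc_zero q (fun i => ⟨(hq i).1, hqx i⟩)
      have e4 : ((loc (PP x) q 0).card : ℝ) ≤ (PP x).card := by
        have : loc (PP x) q 0 ⊆ PP x := by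
          unfold loc
          exact filter_subset _ _
        exact_mod_cast card_le_card this
      have e5 : 2 * k * Real.log x ≤ η / 2 * (PP x).card := by
        have e6 : 64 * k * Real.log x ^ 4 ≤ x := by
          refine (h6 x (by omega)).trans ?_
          rw [Real.sqrt_le_left (by linarith)]
          nlinarith
        have e7 : 2 * k * Real.log x ≤ (1 / Real.log x) / 2 * (x / (8 * Real.log x ^ 2)) := by
          have e8 : (1 / Real.log x) / 2 * (x / (8 * Real.log x ^ 2)) = x / (16 * Real.log x ^ 3) := by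
            field_simp
            ring
          rw [e8, le_div_iff₀ (by positivity)]
          have e9 : 2 * k * Real.log x * (16 * Real.log x ^ 3) = 32 * k * Real.log x ^ 4 := by ring
          have e10 : (0 : ℝ) ≤ k * Real.log x ^ 4 := by positivity
          linarith
        refine e7.trans ?_
        gcongr
      have e6 : |dens q * ((loc (PP x) q 0).card / Real.log x ^ k) - dens q * ((PP x).card / Real.log x ^ k)| ≤
          η / 2 * dens q * ((PP x).card / Real.log x ^ k) := by
        have e7 : dens q * ((loc (PP x) q 0).card / Real.log x ^ k) - dens q * ((PP x).card / Real.log x ^ k) =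
            -(dens q * ((((PP x).card : ℝ) - (loc (PP x) q 0).card) / Real.log x ^ k)) := by ring
        rw [e7, abs_neg, abs_of_nonneg (mul_nonneg hd0 (div_nonneg (by linarith) (by positivity)))]
        have e8 : η / 2 * dens q * ((PP x).card / Real.log x ^ k) =
            dens q * (η / 2 * (PP x).card / Real.log x ^ k) := by ring
        rw [e8]
        refine mul_le_mul_of_nonneg_left ?_ hd0
        refine div_le_div_of_nonneg_right ?_ (by positivity)
        linarith
      have e7 := hN.2.2
      have e8 := abs_sub_le ((common (PP x) N).card : ℝ) (dens q * ((loc (PP x) q 0).card / Real.log x ^ k))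
        (dens q * ((PP x).card / Real.log x ^ k))
      rw [e0, e1, e2]
      have e9 : η * (dens q * ((PP x).card / Real.log x ^ k)) = η / 2 * dens q * ((PP x).card / Real.log x ^ k) +
          η / 2 * dens q * ((PP x).card / Real.log x ^ k) := by ring
      linarith
    rw [← hl] at h7
    calc _ ≤ ((excG (den q * ((lcs (PP x) q 0).card / Real.log x ^ k)) (η / 2 * den q * ((PP x).card / Real.log x ^ k)) x
          (PP x) q 0).card : ℝ) := by exact_mod_cast card_le_card hsub
      _ ≤ C * l / ((η / 2) ^ 2 * w) * ∏ i, ((x : ℝ) / q i) := h7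
      _ ≤ 4 * (2 ^ k * C) * l / (η ^ 2 * w) * ∏ i, ((x : ℝ) / q i) := by
          refine mul_le_mul_of_nonneg_right ?_ hPi0.le
          have e1 : C * l / ((η / 2) ^ 2 * w) = 4 * C * l / (η ^ 2 * w) := by
            field_simp
            ring
          rw [e1]
          refine div_le_div_of_nonneg_right ?_ (by positivity)
          refine mul_le_mul_of_nonneg_right ?_ (by linarith)
          linarith

end Pool.Agent.Results.MP_5d7b92_nt.MultiplesOfLargeModuli
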