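import Pool.Agent.H560.NP.R10

/-!
# No periodic function predicts the number of the Goldbach representations with a small prime-indexed summand

Author: helper560.

The question asks whether every even number `2n > 4` is `p + q` with primes `p`, `q` and prime index `π(p)`. Here we
consider the number `r(n)` of the representations of even `n` in which `p` is at most a fixed power `(log n) ^ t` of
the logarithm. The expected number (Cramér, Granville; Hardy and Littlewood) has the form `G(n) / log n`, where `G(n)`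
depends only on the residues of `n` modulo the primes up to some limit. We prove that no prediction of the form
`G(n) / log n`, `G` an ARBITRARY function with a period `Q ≤ exp ((log N) ^ δ)`, `δ < 1`, is correct up to a small
constant factor for all even `n ≤ N`: it is wrong by at least a constant times the mean value of `r` for at least
`N exp (-(log N) ^ θ)` even `n ≤ N`, with a `θ < 1`. (The product of all primes up to `(log N) ^ δ'`, `δ' < δ`, is a
possible period `Q`.) For `t > 2` such a thing does not happen for large `N` in the random models.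

The theorem is proved for arbitrary nonnegative weights `f m`, `|m| ≤ (log N) ^ t`, instead of the characteristic
function of the primes with prime index, uniformly in `f`, and in every residue class modulo a squarefree `q`.

Proof. Let `P` be the set of the primes between `(log N) ^ κ` and `(log N) ^ θ'`, `δ < κ < θ' < 1`, which do not
divide `Q`. If `θ'` is close to `κ` then there are lengths `U` such that all integers up to `U + (log N) ^ t` have at
most `k` prime factors in `P`, and the number of the integers in intervals of this length without prime factors from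
`P` is `U ∑_{j ≤ k} (-1) ^ j e_j` up to a small error, `e_j` the elementary symmetric sums of the `1 / p`, `p ∈ P`
(inclusion and exclusion which stops after `k` steps). The densities for `k` and for `k + 1` are different. So for
EVERY class modulo the other primes `≤ (log N) ^ θ'` there are two extensions to classes modulo all these primes
with different weighted numbers of survivors `n - m`; the rows of Maier's matrix over these two classes contain
different numbers of primes, but `G` has the same mean value over both.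
-/

set_option autoImplicit false

open Filter

namespace Pool.Agent.Results.MP_5d7b92_nt.NoPeriodicPrediction

open Classical in
/-- the sum of the weights `f m` over the integers `m`, `|m| ≤ Y`, for which `n - m` is a prime -/
noncomputable def reps (f : ℤ → ℝ) (Y n : ℕ) : ℝ :=
  ∑ m ∈ (Finset.Icc (-(Y : ℤ)) (Y : ℤ)).filter (fun m => ∃ p : ℕ, p.Prime ∧ (n : ℤ) = m + p), f m

open Classical in
/-- the sum of the weights `f m` over the integers `m`, `|m| ≤ Y`, for which `a - m` is coprime to `q` -/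
noncomputable def total (f : ℤ → ℝ) (Y q a : ℕ) : ℝ :=
  ∑ m ∈ (Finset.Icc (-(Y : ℤ)) (Y : ℤ)).filter (fun m => IsCoprime ((a : ℤ) - m) (q : ℤ)), f m

/-- `F` is on `(N / 3, N]` a prediction with the period `Q`: `F n = G n * g n`, where `G` has the period `Q` and
`g n` is `1 / log N` up to a factor between `1 - c` and `1 + c`, for instance `g n = 1 / log n` -/
def Periodic (c : ℝ) (N Q : ℕ) (F : ℕ → ℝ) : Prop := ∃ G g : ℕ → ℝ, (∀ n, G (n + Q) = G n) ∧
  ∀ n : ℕ, (N : ℝ) / 3 < n → n ≤ N → |g n * Real.log N - 1| ≤ c ∧ F n = G n * g n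

/-- the primes `p ≤ Y` with a prime index `π(p)` -/
def indexed (Y : ℕ) : Finset ℕ := (Finset.Icc 1 Y).filter (fun p => p.Prime ∧ (Nat.primeCounting p).Prime)

/-- the number of the representations `n = p + p'` with primes `p`, `p'`, prime index `π(p)` and `p ≤ Y` -/
def goldbach (Y n : ℕ) : ℕ := ((indexed Y).filter (fun p => p < n ∧ (n - p).Prime)).card

open Classical in
/-- the indicator function of the primes with prime index -/
noncomputable def ind (m : ℤ) : ℝ := if ∃ p : ℕ, (p : ℤ) = m ∧ p.Prime ∧ (Nat.primeCounting p).Prime then 1 else 0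

theorem odd_of_indexed {p : ℕ} (hp : p.Prime) (hi : (Nat.primeCounting p).Prime) : Odd p := by
  rcases hp.eq_two_or_odd' with h | h
  · rw [h] at hi
    have h2 : Nat.primeCounting 2 = 1 := by decide
    rw [h2] at hi
    exact absurd hi Nat.not_prime_one
  · exact h

theorem reps_ind (Y n : ℕ) : reps ind Y n = goldbach Y n := by
  classical
  unfold reps goldbach
  rw [Finset.card_eq_sum_ones, Nat.cast_sum, Nat.cast_one]
  have h1 : ∑ m ∈ (Finset.Icc (-(Y : ℤ)) (Y : ℤ)).filter (fun m => ∃ p : ℕ, p.Prime ∧ (n : ℤ) = m + p), ind m =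
      ∑ m ∈ ((Finset.Icc (-(Y : ℤ)) (Y : ℤ)).filter (fun m => ∃ p : ℕ, p.Prime ∧ (n : ℤ) = m + p)).filter
        (fun m => ∃ p : ℕ, (p : ℤ) = m ∧ p.Prime ∧ (Nat.primeCounting p).Prime), (1 : ℝ) := by
    rw [Finset.sum_filter (p := fun m => ∃ p : ℕ, (p : ℤ) = m ∧ p.Prime ∧ (Nat.primeCounting p).Prime)]
    rfl
  rw [h1]
  symm
  apply Finset.sum_bij (fun (p : ℕ) _ => (p : ℤ))
  · intro p hp
    rw [Finset.mem_filter, indexed, Finset.mem_filter, Finset.mem_Icc] at hp
    obtain ⟨⟨⟨h2, h3⟩, h4, h5⟩, h6, h7⟩ := hp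
    rw [Finset.mem_filter, Finset.mem_filter, Finset.mem_Icc]
    refine ⟨⟨⟨by omega, by omega⟩, n - p, h7, by omega⟩, p, rfl, h4, h5⟩
  · intro a _ b _ hab
    exact_mod_cast hab
  · intro m hm
    rw [Finset.mem_filter, Finset.mem_filter, Finset.mem_Icc] at hm
    obtain ⟨⟨⟨h2, h3⟩, p', h4, h5⟩, p, h6, h7, h8⟩ := hm
    refine ⟨p, ?_, h6⟩
    rw [Finset.mem_filter, indexed, Finset.mem_filter, Finset.mem_Icc]
    have h9 := h7.one_lt
    have h10 := h4.one_lt
    refine ⟨⟨⟨by omega, by omega⟩, h7, h8⟩, by omega, ?_⟩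
    have h11 : n - p = p' := by omega
    rw [h11]
    exact h4
  · intro p _
    rfl

theorem total_ind (Y : ℕ) : total ind Y 2 0 = (indexed Y).card := by
  classical
  unfold total
  rw [Finset.card_eq_sum_ones, Nat.cast_sum, Nat.cast_one]
  have h1 : ∑ m ∈ (Finset.Icc (-(Y : ℤ)) (Y : ℤ)).filter (fun m => IsCoprime (((0 : ℕ) : ℤ) - m) ((2 : ℕ) : ℤ)), ind m =
      ∑ m ∈ ((Finset.Icc (-(Y : ℤ)) (Y : ℤ)).filter (fun m => IsCoprime (((0 : ℕ) : ℤ) - m) ((2 : ℕ) : ℤ))).filter
        (fun m => ∃ p : ℕ, (p : ℤ) = m ∧ p.Prime ∧ (Nat.primeCounting p).Prime), (1 : ℝ) := by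
    rw [Finset.sum_filter (p := fun m => ∃ p : ℕ, (p : ℤ) = m ∧ p.Prime ∧ (Nat.primeCounting p).Prime)]
    rfl
  rw [h1]
  symm
  apply Finset.sum_bij (fun (p : ℕ) _ => (p : ℤ))
  · intro p hp
    rw [indexed, Finset.mem_filter, Finset.mem_Icc] at hp
    obtain ⟨⟨h2, h3⟩, h4, h5⟩ := hp
    rw [Finset.mem_filter, Finset.mem_filter, Finset.mem_Icc]
    refine ⟨⟨⟨by omega, by omega⟩, ?_⟩, p, rfl, h4, h5⟩
    have h6 : Nat.Coprime p 2 := by
      rw [Nat.coprime_two_right]
      exact odd_of_indexed h4 h5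
    have h7 : IsCoprime (p : ℤ) ((2 : ℕ) : ℤ) := Nat.isCoprime_iff_coprime.2 h6
    have h8 : ((0 : ℕ) : ℤ) - (p : ℤ) = -(p : ℤ) := by simp
    rw [h8]
    exact h7.neg_left
  · intro a _ b _ hab
    exact_mod_cast hab
  · intro m hm
    rw [Finset.mem_filter, Finset.mem_filter, Finset.mem_Icc] at hm
    obtain ⟨⟨⟨h2, h3⟩, -⟩, p, h6, h7, h8⟩ := hm
    refine ⟨p, ?_, h6⟩
    rw [indexed, Finset.mem_filter, Finset.mem_Icc]
    have h9 := h7.one_lt
    exact ⟨⟨by omega, by omega⟩, h7, h8⟩
  · intro p _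
    rfl

/-- **No periodic function predicts the number of the representations of `n` as the sum of a prime and of a small
integer with arbitrary weights.** -/
theorem general (t δ : ℝ) (hδ : δ < 1) (q : ℕ) (hq : Squarefree q) :
    ∃ c : ℝ, 0 < c ∧ ∃ θ : ℝ, θ < 1 ∧ ∀ᶠ N : ℕ in atTop, ∀ (f : ℤ → ℝ) (Q a : ℕ) (F : ℕ → ℝ), (∀ m, 0 ≤ f m) →
      1 ≤ Q → (Q : ℝ) ≤ Real.exp ((Real.log N) ^ δ) → Periodic c N Q F →
      (N : ℝ) * Real.exp (-((Real.log N) ^ θ)) ≤ (((Finset.Icc 1 N).filter (fun n : ℕ => (N : ℝ) / 3 < n ∧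
        n ≡ a [MOD q] ∧ c * (total f ⌊(Real.log N) ^ t⌋₊ q a / Real.log N) ≤
          |reps f ⌊(Real.log N) ^ t⌋₊ n - F n|)).card : ℝ) :=
  Pool.Agent.H560.NP.no_prediction t δ hδ q hq

/-- **No periodic function predicts the number of the Goldbach representations with a small prime-indexed summand.**
Part (1) is the case of the problem, part (2) the general theorem. -/
theorem result (t δ : ℝ) (hδ : δ < 1) :
    -- (1) the representations of even numbers with a prime-indexed prime `p ≤ (log N) ^ t`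
    (∃ c : ℝ, 0 < c ∧ ∃ θ : ℝ, θ < 1 ∧ ∀ᶠ N : ℕ in atTop, ∀ (Q : ℕ) (F : ℕ → ℝ),
      1 ≤ Q → (Q : ℝ) ≤ Real.exp ((Real.log N) ^ δ) → Periodic c N Q F →
      (N : ℝ) * Real.exp (-((Real.log N) ^ θ)) ≤ (((Finset.Icc 1 N).filter (fun n : ℕ => (N : ℝ) / 3 < n ∧ Even n ∧
        c * ((indexed ⌊(Real.log N) ^ t⌋₊).card / Real.log N) ≤
          |(goldbach ⌊(Real.log N) ^ t⌋₊ n : ℝ) - F n|)).card : ℝ)) ∧
    -- (2) arbitrary nonnegative weights, and the numbers `n ≡ a mod q`
    (∀ q : ℕ, Squarefree q → ∃ c : ℝ, 0 < c ∧ ∃ θ : ℝ, θ < 1 ∧ ∀ᶠ N : ℕ in atTop,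
      ∀ (f : ℤ → ℝ) (Q a : ℕ) (F : ℕ → ℝ), (∀ m, 0 ≤ f m) →
      1 ≤ Q → (Q : ℝ) ≤ Real.exp ((Real.log N) ^ δ) → Periodic c N Q F →
      (N : ℝ) * Real.exp (-((Real.log N) ^ θ)) ≤ (((Finset.Icc 1 N).filter (fun n : ℕ => (N : ℝ) / 3 < n ∧
        n ≡ a [MOD q] ∧ c * (total f ⌊(Real.log N) ^ t⌋₊ q a / Real.log N) ≤
          |reps f ⌊(Real.log N) ^ t⌋₊ n - F n|)).card : ℝ)) := by
  refine ⟨?_, fun q hq => general t δ hδ q hq⟩
  obtain ⟨c, hc, θ, hθ, h⟩ := general t δ hδ 2 Nat.prime_two.prime.squarefree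
  refine ⟨c, hc, θ, hθ, ?_⟩
  filter_upwards [h] with N hN
  intro Q F hQ1 hQ hF
  have h1 := hN ind Q 0 F (fun m => by unfold ind; split_ifs <;> norm_num) hQ1 hQ hF
  refine h1.trans (Nat.cast_le.2 (Finset.card_le_card ?_))
  intro n hn
  rw [Finset.mem_filter] at hn ⊢
  obtain ⟨h2, h3, h4, h5⟩ := hn
  rw [total_ind, reps_ind] at h5
  exact ⟨h2, h3, (Nat.modEq_zero_iff_dvd.1 h4).elim (fun j hj => ⟨j, by omega⟩), h5⟩

end Pool.Agent.Results.MP_5d7b92_nt.NoPeriodicPrediction
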