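import Pool.Agent.H559.IX.Pages
import Pool.Agent.H559.IX.Nth

set_option autoImplicit false

/-!
# Goldbach representations with a prime-indexed summand in every short window, in the random sieve model

For every prime `q` a residue class `a q` modulo `q` is drawn uniformly and independently. The random primes are the
integers `v ≥ 3` which are, for all primes `q ≤ z v`, not in the class `0` modulo `q` if `q ≤ (log v) ^ c`, and not in the
class `a q` modulo `q` if `q > (log v) ^ c`. This is the model of Banks, Ford and Tao (*Large prime gaps and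
probabilistic models*) in which the small primes sieve out the class `0` as they do for the true primes. The sieving
limit `z` is any nondecreasing function for which `∏_{q ≤ z v} (1 - 1 / q)` is asymptotic to `1 / log v`; the choice `zBFT`
of Banks, Ford and Tao is one of them. The exponent `c` is any number larger than `1`. `nthEl R m` is the `m`-th random
prime, and `iPrime R i m` is the `m`-th `i`-prime, `i + 1` applications of `nthEl R` to `m`; the `1`-primes are the random
primes whose index is a random prime.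

The theorem: almost surely, for every `i` there are `C, κ` such that for every large even `N` and EVERY real `x` with
`(log N) ^ κ ≤ x ≤ N / 3` there is an `i`-prime `p` with `x < p ≤ x + (log N) ^ C` for which `N - p` is a random prime. With
`i = 1` this is the question of the page (for large `N`), in every window of polylogarithmic length at every height `x`.

The event the index of `p` is a random prime depends on the number of all random primes below `p`. The proof avoids the
distribution of these numbers: it shows, for all `x` at once, that in every window `(x, x + Λ ^ A]` the random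
primes realize every admissible combination of a local condition and a relative index, with an exceptional probability
which is summable over `x` and over all sets of indices under consideration. This uses that the survivors of the large primes in a
window are exchangeable given the survivors of the small primes and the random primes in the auxiliary windows, and local lower
bounds for hypergeometric probabilities. The `i`-primes are treated by induction on `i`, at all scales at once.
-/

open MeasureTheory ProbabilityTheory Filter Topology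

namespace Pool.Agent.Results.MP_5d7b92_nt.PrimeIndexedGoldbachWindows

/-- `V m = ∏ (1 - 1 / q)` over the primes `q ≤ m` -/
noncomputable def V (m : ℕ) : ℝ := ∏ q ∈ (Finset.range (m + 1)).filter Nat.Prime, (1 - 1 / (q : ℝ))

/-- the classes `a q` are independent, and `a q` is uniform on `0, …, q - 1` for every prime `q` -/
structure Model {Ω : Type} [MeasurableSpace Ω] (P : Measure Ω) (a : ℕ → Ω → ℕ) : Prop where
  measurable : ∀ q, Measurable (a q)
  independent : iIndepFun a P
  uniform : ∀ q, q.Prime → ∀ r < q, P.real {ω | a q ω = r} = 1 / q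

/-- the sieving limit of Banks, Ford and Tao: the largest `m` with `∏_{q ≤ m} (1 - 1 / q)⁻¹ ≤ log n` -/
noncomputable def zBFT (n : ℕ) : ℕ := sSup {m : ℕ | (V m)⁻¹ ≤ Real.log n}

/-- the admissible sieving limits: the density of the random primes near `v` is asymptotic to `1 / log v` -/
def Limit (z : ℕ → ℕ) : Prop := Monotone z ∧ Tendsto (fun v => V (z v) * Real.log v) atTop (𝓝 1)

open Classical in
/-- the set of the random primes of a sample -/
def R {Ω : Type} (z : ℕ → ℕ) (c : ℝ) (a : ℕ → Ω → ℕ) (ω : Ω) : Set ℕ :=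
  {v | 3 ≤ v ∧ ∀ q ≤ z v, q.Prime → v % q ≠ if (q : ℝ) ≤ Real.log v ^ c then 0 else a q ω}

/-- the `m`-th element of `A` in increasing order, `m ≥ 1` -/
noncomputable def nthEl (A : Set ℕ) (m : ℕ) : ℕ := Nat.nth (fun u => u ∈ A) (m - 1)

/-- the `m`-th `i`-prime of `A`: `i + 1` applications of `nthEl A` to `m`; the `1`-primes are the elements of `A` whose index
is in `A` -/
noncomputable def iPrime (A : Set ℕ) (i m : ℕ) : ℕ := (nthEl A)^[i + 1] m

theorem result :
    (∃ (Ω : Type) (_ : MeasurableSpace Ω) (P : Measure Ω) (a : ℕ → Ω → ℕ), Model P a) ∧ Limit zBFT ∧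
    ∀ c : ℝ, 1 < c → ∀ z : ℕ → ℕ, Limit z →
      ∀ (Ω : Type) [MeasurableSpace Ω] (P : Measure Ω) (a : ℕ → Ω → ℕ), Model P a →
        ∀ᵐ ω ∂P, ∀ i : ℕ, ∃ C κ : ℕ, ∀ᶠ N : ℕ in atTop, Even N →
          ∀ x : ℝ, Real.log N ^ κ ≤ x → x ≤ (N : ℝ) / 3 → ∃ m : ℕ, 1 ≤ m ∧
            x < iPrime (R z c a ω) i m ∧ (iPrime (R z c a ω) i m : ℝ) ≤ x + Real.log N ^ C ∧
            N - iPrime (R z c a ω) i m ∈ R z c a ω := by
  classical
  refine ⟨?_, ⟨Pool.Agent.T2H32.BF.z0_mono, Pool.Agent.T2H32.BF.z0_lim⟩, ?_⟩
  · obtain ⟨Ω, i, P, a, h⟩ := Pool.Agent.T2H32.BF.exists_model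
    exact ⟨Ω, i, P, a, h.measurable, h.independent, h.uniform⟩
  · intro c hc z hz Ω _ P a hmod
    have h : Pool.Agent.T2H32.BF.Model P a := ⟨hmod.measurable, hmod.independent, hmod.uniform⟩
    have h1 : ∀ i : ℕ, ∃ C κ : ℕ, ∀ᵐ ω ∂P, ∀ᶠ Λ : ℕ in atTop, ∀ x : ℕ, Λ ^ κ ≤ x → (x : ℝ) ≤ Real.exp Λ →
        ∀ T : ℕ, 3 * x ≤ T → (T : ℝ) ≤ Real.exp (2 * Λ) → Even T →
          ∃ v ∈ Pool.Agent.H559.IX.It (Pool.Agent.H559.IX.R0 z c (fun q => a q ω)) i, x < v ∧ v ≤ x + Λ ^ C ∧
            T - v ∈ Pool.Agent.H559.IX.R0 z c (fun q => a q ω) := by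
      intro i
      obtain ⟨C, κ, hC⟩ := Pool.Agent.H559.IX.t_iter Pool.Agent.H559.IX.master Pool.Agent.H559.IX.t_sys
        Pool.Agent.H559.IX.elem c hc i
      exact ⟨C, κ, hC z hz Ω P a h⟩
    choose C κ hC using h1
    have h2 := ae_all_iff.2 hC
    filter_upwards [h2] with ω hω i
    have e : Pool.Agent.H559.IX.R0 z c (fun q => a q ω) = R z c a ω := rfl
    have h0 : 0 ∉ R z c a ω := Pool.Agent.H559.IX.zero_notMem z c (fun q => a q ω)
    rw [e] at hω
    refine ⟨C i + 1, κ i + 1, ?_⟩
    have hlogT : Tendsto (fun n : ℕ => Real.log (n : ℝ)) atTop atTop :=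
      Real.tendsto_log_atTop.comp tendsto_natCast_atTop_atTop
    have hΛT : Tendsto (fun n : ℕ => ⌊Real.log (n : ℝ)⌋₊ + 1) atTop atTop :=
      tendsto_atTop_mono (fun n => Nat.le_succ _) (tendsto_nat_floor_atTop.comp hlogT)
    filter_upwards [hΛT.eventually (hω i), hlogT.eventually_ge_atTop (2 ^ κ i + 2 ^ C i + 2), eventually_ge_atTop 1]
      with N hN hlog hN1 hev x hx1 hx2
    set ℓ := Real.log (N : ℝ) with hℓ
    set Λ : ℕ := ⌊ℓ⌋₊ + 1 with hΛ
    have hp1 : (0 : ℝ) < 2 ^ κ i := by positivity
    have hp2 : (0 : ℝ) < 2 ^ C i := by positivity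
    have hℓ2 : 2 ≤ ℓ := by linarith
    have hΛ1 : ℓ < Λ := by
      rw [hΛ]
      push_cast
      exact Nat.lt_floor_add_one ℓ
    have hΛ2 : (Λ : ℝ) ≤ 2 * ℓ := by
      have := Nat.floor_le (show 0 ≤ ℓ by linarith)
      rw [hΛ]
      push_cast
      linarith
    have hN0 : (0 : ℝ) < N := by exact_mod_cast hN1
    have hNe : (N : ℝ) < Real.exp Λ := by
      rw [← Real.exp_log hN0]
      exact Real.exp_lt_exp.2 hΛ1
    have hΛκ : ((Λ : ℝ)) ^ κ i ≤ ℓ ^ (κ i + 1) := by
      calc ((Λ : ℝ)) ^ κ i ≤ (2 * ℓ) ^ κ i := pow_le_pow_left₀ (Nat.cast_nonneg _) hΛ2 _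
        _ = 2 ^ κ i * ℓ ^ κ i := mul_pow _ _ _
        _ ≤ ℓ * ℓ ^ κ i := mul_le_mul_of_nonneg_right (by linarith) (by positivity)
        _ = _ := by ring
    have hΛC : ((Λ : ℝ)) ^ C i ≤ ℓ ^ (C i + 1) := by
      calc ((Λ : ℝ)) ^ C i ≤ (2 * ℓ) ^ C i := pow_le_pow_left₀ (Nat.cast_nonneg _) hΛ2 _
        _ = 2 ^ C i * ℓ ^ C i := mul_pow _ _ _
        _ ≤ ℓ * ℓ ^ C i := mul_le_mul_of_nonneg_right (by linarith) (by positivity)
        _ = _ := by ring
    have hx0 : 0 ≤ x := le_trans (by positivity) hx1
    have hfl : ((⌊x⌋₊ : ℕ) : ℝ) ≤ x := Nat.floor_le hx0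
    obtain ⟨v, hv, hv1, hv2, hv3⟩ := hN ⌊x⌋₊ (by
      have : (((Λ : ℕ) ^ κ i : ℕ) : ℝ) ≤ x := by
        push_cast
        exact hΛκ.trans hx1
      exact Nat.le_floor this) (by
      have : x ≤ N := by linarith
      linarith) N (by
      have : (3 : ℝ) * (⌊x⌋₊ : ℕ) ≤ N := by linarith
      exact_mod_cast this) (by
      refine hNe.le.trans (Real.exp_le_exp.2 ?_)
      have : (0 : ℝ) ≤ Λ := Nat.cast_nonneg _
      linarith) hev
    obtain ⟨m, hm, hmv⟩ := Pool.Agent.H559.IX.iter_It _ h0 i v hv
    have hm' : iPrime (R z c a ω) i m = v := hmv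
    refine ⟨m, hm, ?_, ?_, ?_⟩
    · rw [hm']
      exact (Nat.floor_lt hx0).1 hv1
    · rw [hm']
      have : (v : ℝ) ≤ (⌊x⌋₊ : ℕ) + ((Λ : ℝ)) ^ C i := by exact_mod_cast hv2
      linarith
    · rw [hm']
      exact hv3

end Pool.Agent.Results.MP_5d7b92_nt.PrimeIndexedGoldbachWindows
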